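import Pool.Agent.Helper92.BO.GoalsE

/-!
# The truncated exponential series
-/

namespace Pool.Agent.Helper32.BO

open Pool.Agent.Bin (BN)
open Pool.Agent.Helper92.FR (Qn)
open Pool.Agent.Helper92.BO

lemma val_invNat (i : ℕ) :
    (Pool.Agent.Helper92.FR.invNat (i + 1)).val = 1 / ((i : ℝ) + 1) := by
  have h : (BN.ofNat (i + 1) - ⟨1⟩ : BN).val = i := by
    rw [BN.val_sub, BN.val_ofNat]
    simp
  unfold Pool.Agent.Helper92.FR.invNat Qn.val
  simp only [h]
  norm_num

/-- EXV. -/
theorem exv : ExvStmt := by
  intro K T
  have h1 : ∀ k : ℕ, (Qn.prod ((List.range k).map fun i => Qn.mul T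
      (Pool.Agent.Helper92.FR.invNat (i + 1)))).val = T.val ^ k / (k.factorial : ℝ) := by
    intro k
    induction k with
    | zero => simp
    | succ k ih =>
      rw [Qn.val_prod] at ih ⊢
      rw [List.range_succ, List.map_append, List.map_append, List.prod_append, ih,
        List.map_singleton, List.map_singleton, List.prod_singleton, Qn.val_mul,
        Nat.factorial_succ]
      rw [val_invNat]
      push_cast
      have h3 : (k : ℝ) + 1 ≠ 0 := by positivity
      have h4 : (k.factorial : ℝ) ≠ 0 := by exact_mod_cast Nat.factorial_ne_zero k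
      field_simp
      exact (pow_succ _ _).symm
  have h2 : ∀ n : ℕ, (((List.range n).map fun k => Qn.prod ((List.range k).map fun i =>
      Qn.mul T (Pool.Agent.Helper92.FR.invNat (i + 1)))).map Qn.val).sum =
        ∑ k ∈ Finset.range n, T.val ^ k / (k.factorial : ℝ) := by
    intro n
    induction n with
    | zero => simp
    | succ n ih =>
      rw [List.range_succ, List.map_append, List.map_append, List.sum_append, ih,
        Finset.sum_range_succ, List.map_singleton, List.map_singleton, List.sum_singleton, h1]
  unfold expQ
  rw [Qn.val_sum]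
  exact h2 (K + 1)

end Pool.Agent.Helper32.BO
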