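import Pool.Agent.Helper92.BO.GoalsC

/-!
# The recursion for the volumes
-/

namespace Pool.Agent.Helper32.BO

open MeasureTheory Finset
open Pool.Agent.Helper92.BO

lemma null_eq {n : ℕ} {i j : Fin n} (h : i ≠ j) :
    volume {U : Fin n → ℝ | U i = U j} = 0 := by
  set s : Submodule ℝ (Fin n → ℝ) := LinearMap.ker
    ((LinearMap.proj i : (Fin n → ℝ) →ₗ[ℝ] ℝ) - LinearMap.proj j) with hs
  have h1 : {U : Fin n → ℝ | U i = U j} = (s : Set (Fin n → ℝ)) := by
    ext U
    simp [hs, sub_eq_zero]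
  rw [h1]
  apply Measure.addHaar_submodule
  intro htop
  have h2 : (Pi.single i 1 : Fin n → ℝ) ∈ s := htop ▸ Submodule.mem_top
  rw [hs, LinearMap.mem_ker, LinearMap.sub_apply, LinearMap.proj_apply, LinearMap.proj_apply,
    Pi.single_eq_same, Pi.single_eq_of_ne h.symm] at h2
  norm_num at h2

/-- The constraints of `J`. -/
def Sc (G : SimpleGraph ℕ) (n : ℕ) (J : Finset (Fin n)) : Set (Fin n → ℝ) :=
  {U | ∀ i ∈ J, ∀ j : Fin n, G.Adj i j → U j ≤ U i}

lemma closed_Sc (G : SimpleGraph ℕ) (n : ℕ) (J : Finset (Fin n)) : IsClosed (Sc G n J) := by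
  have h : Sc G n J = ⋂ i ∈ J, ⋂ j : Fin n, ⋂ _ : G.Adj i j, {U : Fin n → ℝ | U j ≤ U i} := by
    ext U
    simp [Sc]
  rw [h]
  exact isClosed_iInter fun i => isClosed_iInter fun _ => isClosed_iInter fun j =>
    isClosed_iInter fun _ => isClosed_le (continuous_apply j) (continuous_apply i)

lemma closed_top (n : ℕ) (K : Finset (Fin n)) (i : Fin n) :
    IsClosed {U : Fin n → ℝ | (∀ i, 0 ≤ U i ∧ U i ≤ 1) ∧ ∀ j ∈ K, U j ≤ U i} := by
  have h : {U : Fin n → ℝ | (∀ i, 0 ≤ U i ∧ U i ≤ 1) ∧ ∀ j ∈ K, U j ≤ U i} =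
      (⋂ i : Fin n, ({U : Fin n → ℝ | 0 ≤ U i} ∩ {U : Fin n → ℝ | U i ≤ 1})) ∩
      ⋂ j ∈ K, {U : Fin n → ℝ | U j ≤ U i} := by
    ext U
    simp
  rw [h]
  refine (isClosed_iInter fun i => ?_).inter (isClosed_iInter fun j => isClosed_iInter fun _ => ?_)
  · exact (isClosed_le continuous_const (continuous_apply i)).inter
      (isClosed_le (continuous_apply i) continuous_const)
  · exact isClosed_le (continuous_apply j) (continuous_apply i)

lemma cube_lt_top (n : ℕ) (S : Set (Fin n → ℝ)) (hS : S ⊆ {U | ∀ i, 0 ≤ U i ∧ U i ≤ 1}) :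
    volume S ≠ ⊤ := by
  have h : {U : Fin n → ℝ | ∀ i, 0 ≤ U i ∧ U i ≤ 1} = Set.Icc (fun _ => 0) (fun _ => 1) := by
    ext U
    constructor
    · intro hU
      exact ⟨fun i => (hU i).1, fun i => (hU i).2⟩
    · intro hU i
      exact ⟨hU.1 i, hU.2 i⟩
  rw [h] at hS
  exact ((measure_mono hS).trans_lt isCompact_Icc.measure_lt_top).ne

/-- PVR. -/
theorem pvr (hsmx : SmxStmt) : PvrStmt := by
  classical
  intro G n I hI hind
  obtain ⟨m, rfl⟩ : ∃ m, n = m + 1 := by
    obtain ⟨i, _⟩ := hI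
    exact ⟨n - 1, by have := i.isLt; omega⟩
  set N := cnF G (m + 1) I with hN
  have hIN : ∀ i ∈ I, i ∈ N := fun i hi => by
    rw [hN, cnF, mem_filter]
    exact ⟨mem_univ _, Or.inl hi⟩
  have hadjN : ∀ i ∈ I, ∀ j : Fin (m + 1), G.Adj i j → j ∈ N := fun i hi j hj => by
    rw [hN, cnF, mem_filter]
    exact ⟨mem_univ _, Or.inr ⟨i, hi, hj⟩⟩
  set A : Fin (m + 1) → Set (Fin (m + 1) → ℝ) := fun i =>
    Sc G (m + 1) (I.erase i) ∩
      {U | (∀ i, 0 ≤ U i ∧ U i ≤ 1) ∧ ∀ j ∈ N.erase i, U j ≤ U i} with hA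
  -- SMX
  have h1 : ∀ i ∈ I, (volume (A i)).toReal * (N.card : ℝ) = PV G (m + 1) (I.erase i) := by
    intro i hi
    have h2 := hsmx m (Sc G (m + 1) (I.erase i)) (N.erase i) i (notMem_erase _ _)
      (closed_Sc G _ _).measurableSet ?_ ?_
    · have h3 : (((N.erase i).card : ℕ) : ℝ) + 1 = (N.card : ℝ) := by
        rw [← card_erase_add_one (hIN i hi)]
        push_cast
        ring
      rw [h3] at h2
      rw [hA]
      rw [h2]
      unfold PV
      congr 2
      ext U
      constructor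
      · intro hU
        exact ⟨hU.2, hU.1⟩
      · intro hU
        exact ⟨hU.2, hU.1⟩
    · intro U x
      have h4 : ∀ i' ∈ I.erase i, Function.update U i x i' = U i' := fun i' hi' =>
        Function.update_of_ne (ne_of_mem_erase hi') _ _
      have h5 : ∀ i' ∈ I.erase i, ∀ j : Fin (m + 1), G.Adj i' j →
          Function.update U i x j = U j := by
        intro i' hi' j hj
        apply Function.update_of_ne
        rintro rfl
        exact hind i' (mem_of_mem_erase hi') j hi hj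
      constructor
      · intro hU i' hi' j hj
        rw [h4 i' hi', h5 i' hi' j hj]
        exact hU i' hi' j hj
      · intro hU i' hi' j hj
        have := hU i' hi' j hj
        rwa [h4 i' hi', h5 i' hi' j hj] at this
    · intro U c hc
      have h4 : ∀ i' ∈ I.erase i, i' ∈ N.erase i := fun i' hi' =>
        mem_erase.mpr ⟨ne_of_mem_erase hi', hIN i' (mem_of_mem_erase hi')⟩
      have h5 : ∀ i' ∈ I.erase i, ∀ j : Fin (m + 1), G.Adj i' j → j ∈ N.erase i := by
        intro i' hi' j hj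
        refine mem_erase.mpr ⟨?_, hadjN i' (mem_of_mem_erase hi') j hj⟩
        rintro rfl
        exact hind i' (mem_of_mem_erase hi') j hi hj
      constructor
      · intro hU i' hi' j hj
        have := hU i' hi' j hj
        simp only [if_pos (h4 i' hi'), if_pos (h5 i' hi' j hj)]
        exact mul_le_mul_of_nonneg_left this hc.le
      · intro hU i' hi' j hj
        have := hU i' hi' j hj
        simp only [if_pos (h4 i' hi'), if_pos (h5 i' hi' j hj)] at this
        exact le_of_mul_le_mul_left this hc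
  -- the union
  have h2 : EI G (m + 1) I = ⋃ i ∈ I, A i := by
    ext U
    simp only [Set.mem_iUnion, exists_prop]
    constructor
    · rintro ⟨hU1, hU2⟩
      obtain ⟨i, hi, hmax⟩ := exists_max_image I U hI
      refine ⟨i, hi, fun i' hi' j hj => hU2 i' (mem_of_mem_erase hi') j hj, hU1, ?_⟩
      intro j hj
      have hjN := mem_of_mem_erase hj
      rw [hN, cnF, mem_filter] at hjN
      rcases hjN.2 with h3 | ⟨v, hv, hvj⟩
      · exact hmax j h3
      · exact (hU2 v hv j hvj).trans (hmax v hv)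
    · rintro ⟨i, hi, hU1, hU2, hU3⟩
      refine ⟨hU2, fun i' hi' j hj => ?_⟩
      by_cases h3 : i' = i
      · subst h3
        refine hU3 j (mem_erase.mpr ⟨?_, hadjN _ hi j hj⟩)
        rintro rfl
        exact G.loopless.irrefl _ hj
      · exact hU1 i' (mem_erase.mpr ⟨h3, hi'⟩) j hj
  have h3 : volume (EI G (m + 1) I) = ∑ i ∈ I, volume (A i) := by
    rw [h2]
    apply measure_biUnion_finset₀
    · intro i hi i' hi' hne
      refine measure_mono_null (t := {U : Fin (m + 1) → ℝ | U i = U i'}) ?_ (null_eq hne)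
      rintro U ⟨hU, hU'⟩
      have h4 : U i' ≤ U i := hU.2.2 i' (mem_erase.mpr ⟨hne.symm, hIN i' hi'⟩)
      have h5 : U i ≤ U i' := hU'.2.2 i (mem_erase.mpr ⟨hne, hIN i hi⟩)
      exact le_antisymm h5 h4
    · intro i _
      exact ((closed_Sc G _ _).inter (closed_top _ _ _)).measurableSet.nullMeasurableSet
  have h4 : PV G (m + 1) I = ∑ i ∈ I, (volume (A i)).toReal := by
    unfold PV
    rw [h3, ENNReal.toReal_sum]
    intro i _
    exact cube_lt_top _ _ fun U hU => hU.2.1
  rw [h4, mul_sum]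
  refine sum_congr rfl fun i hi => ?_
  rw [mul_comm]
  exact h1 i hi

end Pool.Agent.Helper32.BO
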