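import Pool.Agent.Helper92.BO.GoalsA

/-!
# The source term, both points above one half
-/

namespace Pool.Agent.Helper32.BO

open MeasureTheory Set
open Pool.Agent.Helper92.BO

lemma rho_of_le {l : ℝ} {W : ℝ → ℝ} {x : ℝ} (h : x ≤ 1 / 2) : rho l W x = W x := by
  unfold rho psiR
  rw [if_pos h, one_mul]

lemma rho_of_gt {l : ℝ} {W : ℝ → ℝ} {x : ℝ} (h : 1 / 2 < x) : rho l W x = l * W x := by
  unfold rho psiR
  rw [if_neg (not_le.mpr h)]

lemma adm_nonneg {d : ℕ} {W : ℝ → ℝ} (h : Adm d W) {x : ℝ} (h0 : 0 ≤ x) (h1 : x ≤ 1) :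
    0 ≤ W x := by
  rcases lt_or_eq_of_le h1 with h2 | h2
  · exact (h.pos x h0 h2).le
  · subst h2
    have h3 := h.rat 0 1 le_rfl zero_le_one le_rfl
    have h4 := (h.pos 0 le_rfl one_pos).le
    have h5 : 0 ≤ W 0 * (1 - 1 : ℝ) ^ d := mul_nonneg h4 (by norm_num)
    have h6 : W 1 * (1 - 0 : ℝ) ^ d = W 1 := by norm_num
    linarith

lemma rho_nonneg {d : ℕ} {l : ℝ} {W : ℝ → ℝ} (hl : 0 < l) (h : Adm d W) {x : ℝ} (h0 : 0 ≤ x)
    (h1 : x ≤ 1) : 0 ≤ rho l W x := by
  have h2 := adm_nonneg h h0 h1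
  rcases le_or_gt x (1 / 2) with h3 | h3
  · rw [rho_of_le h3]; exact h2
  · rw [rho_of_gt h3]; exact mul_nonneg hl.le h2

lemma rho_anti {d : ℕ} {l : ℝ} {W : ℝ → ℝ} (hl : 0 < l) (hl1 : l ≤ 1) (h : Adm d W) {x' x : ℝ}
    (h0 : 0 ≤ x') (hx : x' ≤ x) (h1 : x ≤ 1) : rho l W x ≤ rho l W x' := by
  have h2 := h.anti x' x h0 hx h1
  have h3 := adm_nonneg h (h0.trans hx) h1
  rcases le_or_gt x (1 / 2) with h4 | h4
  · rw [rho_of_le h4, rho_of_le (hx.trans h4)]; exact h2
  · rw [rho_of_gt h4]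
    rcases le_or_gt x' (1 / 2) with h5 | h5
    · rw [rho_of_le h5]
      nlinarith
    · rw [rho_of_gt h5]
      exact mul_le_mul_of_nonneg_left h2 hl.le

lemma adm_int {d : ℕ} {W : ℝ → ℝ} (h : Adm d W) {a b : ℝ} (ha : 0 ≤ a) (hab : a ≤ b)
    (hb : b ≤ 1) : IntervalIntegrable W volume a b := by
  apply ContinuousOn.intervalIntegrable
  rw [uIcc_of_le hab]
  exact h.cont.mono (Icc_subset_Icc ha hb)

lemma rho_int01 {d : ℕ} {l : ℝ} {W : ℝ → ℝ} (h : Adm d W) :
    IntervalIntegrable (rho l W) volume 0 1 := by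
  have h1 : IntervalIntegrable (rho l W) volume 0 (1 / 2) := by
    have h2 := adm_int h le_rfl (by norm_num : (0 : ℝ) ≤ 1 / 2) (by norm_num)
    refine h2.congr fun x hx => ?_
    rw [uIoc_of_le (by norm_num : (0 : ℝ) ≤ 1 / 2)] at hx
    exact (rho_of_le hx.2).symm
  have h3 : IntervalIntegrable (rho l W) volume (1 / 2) 1 := by
    have h2 := (adm_int h (by norm_num : (0 : ℝ) ≤ 1 / 2) (by norm_num) le_rfl).const_mul l
    refine h2.congr fun x hx => ?_
    rw [uIoc_of_le (by norm_num : (1 / 2 : ℝ) ≤ 1)] at hx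
    exact (rho_of_gt hx.1).symm
  exact h1.trans h3

lemma rho_int {d : ℕ} {l : ℝ} {W : ℝ → ℝ} (h : Adm d W) {a b : ℝ} (ha : 0 ≤ a) (hab : a ≤ b)
    (hb : b ≤ 1) : IntervalIntegrable (rho l W) volume a b := by
  apply (rho_int01 h).mono_set
  rw [uIcc_of_le hab, uIcc_of_le zero_le_one]
  exact Icc_subset_Icc ha hb

/-- The integral of `(1 - x) ^ d`. -/
lemma int_pow (d : ℕ) (a b : ℝ) :
    ((d : ℝ) + 1) * ∫ x in a..b, (1 - x) ^ d = (1 - a) ^ (d + 1) - (1 - b) ^ (d + 1) := by
  have h : ∫ x in a..b, (1 - x) ^ d = ∫ x in (1 - b)..(1 - a), x ^ d :=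
    intervalIntegral.integral_comp_sub_left (fun x => x ^ d) 1
  rw [h, integral_pow]
  have : (d : ℝ) + 1 ≠ 0 := by positivity
  field_simp

/-- SRC. -/
theorem src : SrcStmt := by
  intro d l W hl hl1 h y' y hy' hyy hy
  have y'0 : 0 ≤ y' := by linarith
  have y'1 : y' ≤ 1 := by linarith
  have y0 : 0 ≤ y := by linarith
  have half0 : (0 : ℝ) ≤ 1 / 2 := by norm_num
  have half1 : (1 / 2 : ℝ) ≤ 1 := by norm_num
  set ρ := rho l W with hρ
  set Z := Zf l W y with hZ
  set Z' := Zf l W y' with hZ'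
  set R := ∫ x in y'..y, ρ x with hR
  set I := ∫ x in (0 : ℝ)..(1 / 2), ρ x with hI
  set Q := ∫ x in (1 / 2 : ℝ)..y', ρ x with hQ
  have hZsplit : Z = Z' + R :=
    (intervalIntegral.integral_add_adjacent_intervals (rho_int h le_rfl y'0 y'1)
      (rho_int h y'0 hyy.le hy)).symm
  have hZ'split : Z' = I + Q :=
    (intervalIntegral.integral_add_adjacent_intervals (rho_int h le_rfl half0 half1)
      (rho_int h half0 hy'.le y'1)).symm
  -- values
  have hW2 : 0 < W (1 / 2) := h.pos _ half0 (by norm_num)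
  have hρ2 : ρ (1 / 2) = W (1 / 2) := rho_of_le le_rfl
  set a := ρ y' with ha
  set b := ρ y with hb
  have a0 : 0 ≤ a := rho_nonneg hl h y'0 y'1
  have b0 : 0 ≤ b := rho_nonneg hl h y0 hy
  -- lower bound for I
  have hI1 : W (1 / 2) / 2 ≤ I := by
    have h1 : ∫ x in (0 : ℝ)..(1 / 2), W (1 / 2) ≤ I := by
      apply intervalIntegral.integral_mono_on half0 intervalIntegrable_const
        (rho_int h le_rfl half0 half1)
      intro x hx
      have := rho_anti hl hl1 h hx.1 hx.2 half1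
      rw [rho_of_le le_rfl] at this
      exact this
    rw [intervalIntegral.integral_const, smul_eq_mul] at h1
    linarith
  have hI0 : 0 < I := by linarith
  -- bounds for Q
  have hQ1 : Q ≤ W (1 / 2) / 2 := by
    have h1 : Q ≤ ∫ x in (1 / 2 : ℝ)..y', W (1 / 2) := by
      apply intervalIntegral.integral_mono_on hy'.le
        (rho_int h half0 hy'.le y'1) intervalIntegrable_const
      intro x hx
      have := rho_anti hl hl1 h half0 hx.1 (hx.2.trans y'1)
      rw [rho_of_le (le_refl (1 / 2 : ℝ))] at this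
      exact this
    rw [intervalIntegral.integral_const, smul_eq_mul] at h1
    nlinarith
  have hQ0 : 0 ≤ Q := by
    apply intervalIntegral.integral_nonneg hy'.le
    intro x hx
    exact rho_nonneg hl h (half0.trans hx.1) (hx.2.trans y'1)
  have hZ'2 : Z' ≤ 2 * I := by linarith
  have hZ'0 : 0 < Z' := by linarith
  -- bounds for R
  have hR0 : 0 ≤ R := by
    apply intervalIntegral.integral_nonneg hyy.le
    intro x hx
    exact rho_nonneg hl h (y'0.trans hx.1) (hx.2.trans hy)
  have hR1 : R ≤ (y - y') * a := by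
    have h1 : R ≤ ∫ x in y'..y, a := by
      apply intervalIntegral.integral_mono_on hyy.le
        (rho_int h y'0 hyy.le hy) intervalIntegrable_const
      intro x hx
      exact rho_anti hl hl1 h y'0 hx.1 (hx.2.trans hy)
    rw [intervalIntegral.integral_const, smul_eq_mul] at h1
    exact h1
  have hZ0 : 0 < Z := by linarith
  have hZ'a : y' * a ≤ Z' := by
    have h1 : ∫ x in (0 : ℝ)..y', a ≤ Z' := by
      apply intervalIntegral.integral_mono_on y'0 intervalIntegrable_const
        (rho_int h le_rfl y'0 y'1)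
      intro x hx
      exact rho_anti hl hl1 h hx.1 hx.2 y'1
    rw [intervalIntegral.integral_const, smul_eq_mul] at h1
    linarith
  have hrat : ∀ x, y' ≤ x → x ≤ 1 → a * (1 - x) ^ d ≤ ρ x * (1 - y') ^ d := by
    intro x hx hx1
    have h1 := h.rat y' x y'0 hx hx1
    have h2 : ρ x = l * W x := rho_of_gt (hy'.trans_le hx)
    have h3 : a = l * W y' := rho_of_gt hy'
    rw [h2, h3, mul_assoc, mul_assoc]
    exact mul_le_mul_of_nonneg_left h1 hl.le
  have hR2 : a * ((1 - y') ^ (d + 1) - (1 - y) ^ (d + 1)) ≤ ((d : ℝ) + 1) * R * (1 - y') ^ d := by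
    have h1 : ∫ x in y'..y, a * (1 - x) ^ d ≤ ∫ x in y'..y, ρ x * (1 - y') ^ d := by
      apply intervalIntegral.integral_mono_on hyy.le
      · apply Continuous.intervalIntegrable
        fun_prop
      · exact (rho_int h y'0 hyy.le hy).mul_const _
      · intro x hx
        exact hrat x hx.1 (hx.2.trans hy)
    rw [intervalIntegral.integral_const_mul, intervalIntegral.integral_mul_const] at h1
    have h2 := int_pow d y' y
    rw [← h2]
    have h3 : (0 : ℝ) ≤ (d : ℝ) + 1 := by positivity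
    nlinarith [mul_le_mul_of_nonneg_left h1 h3]
  -- the bound for Mf
  have hy'lt : y' < 1 := by linarith
  have hkey : (1 - y') * a - (1 - y) * b ≤ ((d : ℝ) + 1) * R := by
    have hp : 0 < (1 - y') ^ d := pow_pos (by linarith) d
    have h1 := hrat y hyy.le hy
    have h2 : ((1 - y') * a - (1 - y) * b) * (1 - y') ^ d ≤
        (((d : ℝ) + 1) * R) * (1 - y') ^ d := by
      refine le_trans ?_ hR2
      have h3 : (1 - y) * (a * (1 - y) ^ d) ≤ (1 - y) * (b * (1 - y') ^ d) :=
        mul_le_mul_of_nonneg_left h1 (by linarith)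
      have h4 : ((1 - y') * a - (1 - y) * b) * (1 - y') ^ d =
        a * (1 - y') ^ (d + 1) - (1 - y) * (b * (1 - y') ^ d) := by ring
      have h5 : a * ((1 - y') ^ (d + 1) - (1 - y) ^ (d + 1)) =
        a * (1 - y') ^ (d + 1) - (1 - y) * (a * (1 - y) ^ d) := by ring
      rw [h4, h5]
      linarith
    exact le_of_mul_le_mul_right h2 hp
  have hMf : Mf l W y' y * (Z' * Z) = (1 - y') * a * (y' * Z) - (1 - y) * b * y * Z' := by
    have e : Mf l W y' y = y' * (1 - y') * a / Z' - y * (1 - y) * b / Z := rfl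
    rw [e]
    field_simp
  have hyZ : y' * Z ≤ y * Z' := by
    rw [hZsplit]
    nlinarith [mul_le_mul_of_nonneg_left hR1 y'0,
      mul_le_mul_of_nonneg_left hZ'a (sub_nonneg.mpr hyy.le)]
  have hM1 : Mf l W y' y * (Z' * Z) ≤ 2 * I * (((d : ℝ) + 1) * R) := by
    rw [hMf]
    have h1 : (1 - y') * a * (y' * Z) ≤ (1 - y') * a * (y * Z') :=
      mul_le_mul_of_nonneg_left hyZ (mul_nonneg (by linarith) a0)
    have h2 : (1 - y') * a * (y * Z') - (1 - y) * b * y * Z' =
      y * Z' * ((1 - y') * a - (1 - y) * b) := by ring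
    have h3 : y * Z' * ((1 - y') * a - (1 - y) * b) ≤ y * Z' * (((d : ℝ) + 1) * R) :=
      mul_le_mul_of_nonneg_left hkey (mul_nonneg y0 hZ'0.le)
    have h4 : y * Z' ≤ 2 * I := by nlinarith
    have h5 : y * Z' * (((d : ℝ) + 1) * R) ≤ 2 * I * (((d : ℝ) + 1) * R) :=
      mul_le_mul_of_nonneg_right h4 (mul_nonneg (by positivity) hR0)
    linarith
  -- the source term
  have hrx : IntervalIntegrable (fun x => ρ x * x) volume 0 y' :=
    (rho_int h le_rfl y'0 y'1).mul_continuousOn continuousOn_id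
  have hinner : ∀ x, ∫ x' in (0 : ℝ)..y', ρ x * ρ x' * (2 * (x - x')) =
      ρ x * (2 * x * Z' - 2 * ∫ x' in (0 : ℝ)..y', ρ x' * x') := by
    intro x
    have e1 : ∀ x', ρ x * ρ x' * (2 * (x - x')) =
      (ρ x * (2 * x)) * ρ x' - (ρ x * 2) * (ρ x' * x') := fun x' => by ring
    simp only [e1]
    rw [intervalIntegral.integral_sub ((rho_int h le_rfl y'0 y'1).const_mul _)
      (hrx.const_mul _), intervalIntegral.integral_const_mul,
      intervalIntegral.integral_const_mul]
    have e2 : Z' = ∫ x' in (0 : ℝ)..y', ρ x' := rfl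
    rw [← e2]
    ring
  have hSf : Sf l W y' y = (∫ x in y'..y, ρ x * (2 * x * Z' - 2 * ∫ x' in (0 : ℝ)..y', ρ x' * x'))
      - (1 - l) / 4 * W (1 / 2) * R := by
    have e : Sf l W y' y = (∫ x in y'..y, ∫ x' in (0 : ℝ)..y', ρ x * ρ x' * (2 * (x - x'))) +
      (1 - l) / 4 * W (1 / 2) * ((if 1 / 2 < y then Z' else 0) - (if 1 / 2 < y' then Z else 0)) :=
      rfl
    rw [e, if_pos (hy'.trans hyy), if_pos hy']
    simp only [hinner]
    rw [hZsplit]
    ring
  -- lower bound for the inner integral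
  have hin : I / 2 ≤ 2 * y' * Z' - 2 * ∫ x' in (0 : ℝ)..y', ρ x' * x' := by
    have e1 : 2 * y' * Z' - 2 * ∫ x' in (0 : ℝ)..y', ρ x' * x' =
        ∫ x' in (0 : ℝ)..y', ρ x' * (2 * (y' - x')) := by
      have e2 : ∀ x', ρ x' * (2 * (y' - x')) = (2 * y') * ρ x' - 2 * (ρ x' * x') :=
        fun x' => by ring
      simp only [e2]
      rw [intervalIntegral.integral_sub ((rho_int h le_rfl y'0 y'1).const_mul _)
        (hrx.const_mul _), intervalIntegral.integral_const_mul,
        intervalIntegral.integral_const_mul]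
      rfl
    have hi1 : IntervalIntegrable (fun x' => ρ x' * (2 * (y' - x'))) volume 0 (1 / 2) :=
      (rho_int h le_rfl half0 half1).mul_continuousOn (by fun_prop)
    have hi2 : IntervalIntegrable (fun x' => ρ x' * (2 * (y' - x'))) volume (1 / 2) y' :=
      (rho_int h half0 hy'.le y'1).mul_continuousOn (by fun_prop)
    rw [e1, ← intervalIntegral.integral_add_adjacent_intervals hi1 hi2]
    have h2 : 0 ≤ ∫ x' in (1 / 2 : ℝ)..y', ρ x' * (2 * (y' - x')) := by
      apply intervalIntegral.integral_nonneg hy'.le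
      intro x hx
      exact mul_nonneg (rho_nonneg hl h (half0.trans hx.1) (hx.2.trans y'1))
        (by linarith [hx.2])
    have h3 : ∫ x' in (0 : ℝ)..(1 / 2), (ρ x' * (1 / 2) + W (1 / 4) * (1 / 2 - 2 * x')) ≤
        ∫ x' in (0 : ℝ)..(1 / 2), ρ x' * (2 * (y' - x')) := by
      apply intervalIntegral.integral_mono_on half0 _ hi1
      · intro x hx
        have hx2 : ρ x = W x := rho_of_le hx.2
        have hx1 : x ≤ 1 := hx.2.trans half1
        have hx0 : 0 ≤ W x := adm_nonneg h hx.1 hx1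
        rw [hx2]
        have h4 : 0 ≤ (W x - W (1 / 4)) * (1 / 2 - 2 * x) := by
          rcases le_total x (1 / 4) with h5 | h5
          · have := h.anti x (1 / 4) hx.1 h5 (by norm_num)
            exact mul_nonneg (by linarith) (by linarith)
          · have := h.anti (1 / 4) x (by norm_num) h5 hx1
            exact mul_nonneg_of_nonpos_of_nonpos (by linarith) (by linarith)
        nlinarith [mul_nonneg hx0 (sub_nonneg.mpr hy'.le)]
      · exact ((rho_int h le_rfl half0 half1).mul_const _).add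
          (Continuous.intervalIntegrable (by fun_prop) _ _)
    rw [intervalIntegral.integral_add ((rho_int h le_rfl half0 half1).mul_const _)
      (Continuous.intervalIntegrable (by fun_prop) _ _), intervalIntegral.integral_mul_const,
      intervalIntegral.integral_const_mul] at h3
    have h4 : ∫ x' in (0 : ℝ)..(1 / 2), (1 / 2 - 2 * x') = 0 := by
      rw [intervalIntegral.integral_sub intervalIntegrable_const
        (Continuous.intervalIntegrable (by fun_prop) _ _), intervalIntegral.integral_const,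
        intervalIntegral.integral_const_mul, integral_id]
      norm_num
    rw [h4] at h3
    linarith
  have hS1 : (I / 2) * R ≤
      ∫ x in y'..y, ρ x * (2 * x * Z' - 2 * ∫ x' in (0 : ℝ)..y', ρ x' * x') := by
    have h1 : ∫ x in y'..y, (I / 2) * ρ x ≤
        ∫ x in y'..y, ρ x * (2 * x * Z' - 2 * ∫ x' in (0 : ℝ)..y', ρ x' * x') := by
      apply intervalIntegral.integral_mono_on hyy.le ((rho_int h y'0 hyy.le hy).const_mul _)
      · exact (rho_int h y'0 hyy.le hy).mul_continuousOn (by fun_prop)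
      · intro x hx
        have h2 := rho_nonneg hl h (y'0.trans hx.1) (hx.2.trans hy)
        rw [mul_comm]
        apply mul_le_mul_of_nonneg_left _ h2
        have h3 : y' * Z' ≤ x * Z' := mul_le_mul_of_nonneg_right hx.1 hZ'0.le
        linarith
    rw [intervalIntegral.integral_const_mul] at h1
    exact h1
  have hS2 : l / 2 * I * R ≤ Sf l W y' y := by
    rw [hSf]
    have h1 : (1 - l) / 4 * W (1 / 2) * R ≤ (1 - l) / 2 * I * R := by
      apply mul_le_mul_of_nonneg_right _ hR0
      nlinarith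
    nlinarith
  -- conclusion
  have hc0 : 0 ≤ l * (1 / 4) ^ d / (8 * ((d : ℝ) + 1)) := by positivity
  calc l * (1 / 4) ^ d / (8 * ((d : ℝ) + 1)) * Mf l W y' y * (Z' * Z)
      = l * (1 / 4) ^ d / (8 * ((d : ℝ) + 1)) * (Mf l W y' y * (Z' * Z)) := by ring
    _ ≤ l * (1 / 4) ^ d / (8 * ((d : ℝ) + 1)) * (2 * I * (((d : ℝ) + 1) * R)) :=
        mul_le_mul_of_nonneg_left hM1 hc0
    _ = (1 / 4) ^ d * (l / 4 * I * R) := by
        have : (d : ℝ) + 1 ≠ 0 := by positivity
        field_simp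
        ring
    _ ≤ 1 * (l / 4 * I * R) := by
        apply mul_le_mul_of_nonneg_right (pow_le_one₀ (by norm_num) (by norm_num))
        exact mul_nonneg (mul_nonneg (by linarith) hI0.le) hR0
    _ ≤ l / 2 * I * R := by
        have : 0 ≤ l * I * R := mul_nonneg (mul_nonneg hl.le hI0.le) hR0
        nlinarith
    _ ≤ Sf l W y' y := hS2

end Pool.Agent.Helper32.BO
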