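import Pool.Agent.Helper92.BO.GoalsE

/-!
# The approximation of the logarithm
-/

namespace Pool.Agent.Helper32.BO

open Pool.Agent.Bin (BN)
open Pool.Agent.Helper92.FR (Qn)
open Pool.Agent.Helper92.BO

lemma sum_map_range (f : ℕ → ℝ) (m : ℕ) :
    ((List.range m).map f).sum = ∑ i ∈ Finset.range m, f i := by
  induction m with
  | zero => simp
  | succ m ih => rw [List.range_succ, List.map_append, List.sum_append, ih,
      Finset.sum_range_succ, List.map_singleton, List.sum_singleton]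

lemma getD_map_range (f : ℕ → Qn) {m i : ℕ} (h : i < m) (z : Qn) :
    ((List.range m).map f).getD i z = f i := by
  rw [List.getD_eq_getElem _ _ (by simpa using h), List.getElem_map, List.getElem_range]

lemma mem_cn {G : SimpleGraph ℕ} {n : ℕ} {I : Finset ℕ} {x : ℕ} :
    x ∈ cn G n I ↔ x < n ∧ (x ∈ I ∨ ∃ v ∈ I, G.Adj v x) := by
  simp only [cn, Finset.mem_filter, Finset.mem_range]

lemma val_sgn (S T : List ℕ) : (sgn S T).val = (-1 : ℝ) ^ (S.length - T.length) := by
  unfold sgn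
  split_ifs with h
  · rw [Qn.val_one, Even.neg_one_pow (Nat.even_iff.mpr h)]
  · rw [Qn.val_neg, Qn.val_one, Odd.neg_one_pow (Nat.odd_iff.mpr (by omega))]

/-- The value of `lval`. -/
lemma val_lval (hNsv : NsvStmt) (hWtv : WtvStmt) {fl : List ℕ} {D m : ℕ} (hD : 0 < D)
    {Q : BN} (hQ : (Q.val : ℝ) ≠ 0) {tab : List (List ℕ × BN)} {T : List ℕ} {y s : ℕ → ℝ}
    (hy0 : y 0 = 1) (hs : IsNs y s)
    (hy : ∀ i, ((yv tab T i).val : ℝ) = Q.val * y i) :
    (lval Q (wts fl D m) m tab T).val =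
      ∑ i ∈ Finset.range m, (aL fl m (i + 1) : ℝ) / (((i : ℝ) + 1) * (D : ℝ) ^ (i + 1)) *
        s (i + 1) := by
  unfold lval
  rw [Qn.val_sum, List.map_map, sum_map_range]
  refine Finset.sum_congr rfl fun i hi => ?_
  have him : i < m := Finset.mem_range.mp hi
  have h1 : (wts fl D m).getD i Qn.zero = wt fl D m (i + 1) := getD_map_range _ him _
  have h2 := hWtv fl D m (i + 1) (by omega) hD
  have h3 := (hNsv (yQ Q tab T m) y s m hy0 hs (fun j hj => by
    have h4 : (yQ Q tab T m).getD j Qn.zero =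
      Qn.mul (Qn.ofBN (yv tab T j)) (Qn.inv (Qn.ofBN Q)) := getD_map_range _ (by omega) _
    rw [h4, Qn.val_mul, Qn.val_inv, Qn.val_ofBN, Qn.val_ofBN, hy j]
    field_simp)).2 i him
  show (Qn.mul ((wts fl D m).getD i Qn.zero) ((nsQ (yQ Q tab T m) m).getD i Qn.zero)).val = _
  rw [Qn.val_mul, h1, h2, h3]
  push_cast
  ring

/-- TOT. -/
theorem tot (hCtb : CtbStmt) (hYvv : YvvStmt) (hNsv : NsvStmt) (hWtv : WtvStmt)
    (hWkv : WkvStmt) (hQmd : QmdStmt) (hSbl : SblStmt) (hRlb : RlbStmt) (hMob : MobStmt)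
    (hPml : PmlStmt) (hPrc : PrcStmt) (hNse : NseStmt) : TotStmt := by
  classical
  intro Δ fl D E n B m N s0 hD hdeg hB hN hs0
  obtain ⟨hR1, hR2, hR3⟩ := hRlb Δ n E hdeg
  obtain ⟨hW1, hW2, hW3⟩ := hWkv E n B m N (by omega) (fun u hu => (hR3 u hu).trans hB) hN
  set p := pG (gE E) n with hp
  have hp0 : p ∅ = 1 := (hPrc (gE E) n).1
  have hy0 : ∀ T, yc p T 0 = 1 := fun T => by
    unfold yc
    rw [Finset.powersetCard_zero, Finset.sum_singleton, hp0]
  choose s hs using fun T => hNse.1 (yc p T) (hy0 T)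
  have hsV : ∀ j ≤ m, s (Finset.range n) j = s0 j :=
    hNse.2 _ _ _ _ m (hy0 _) (fun _ _ => rfl) (hs _).1 hs0.1 (fun j _ => (hs _).2 j)
      (fun j _ => hs0.2 j)
  set w : ℕ → ℝ := fun i => (aL fl m (i + 1) : ℝ) / (((i : ℝ) + 1) * (D : ℝ) ^ (i + 1)) with hw
  -- the function on sets
  set g : Finset ℕ → ℝ := fun S => ∑ T ∈ S.powerset, (-1 : ℝ) ^ (S.card - T.card) *
    ∑ i ∈ Finset.range m, w i * s T (i + 1) with hg
  have hQ : (((qm Δ m).val : ℕ) : ℝ) ≠ 0 := by
    rw [hQmd Δ m]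
    exact_mod_cast Nat.factorial_ne_zero _
  -- one set
  have hone : ∀ S ∈ setsL E n B m N,
      ((terms E n (qm Δ m) (wts fl D m) m (S.take m)).map Qn.val).sum = g S.toFinset := by
    intro S hS
    obtain ⟨hnd, hlt, hlen⟩ := hW1 S hS
    obtain ⟨hB1, hB2, hB3, hB4, hB5, hB6⟩ := hSbl S hnd
    rw [List.take_of_length_le hlen]
    obtain ⟨c, hc1, hc2⟩ := hCtb Δ n E (qm Δ m) S hdeg hnd hlt (fun I hI => by
      rw [hQmd Δ m]
      apply Nat.factorial_dvd_factorial
      have hIl : ∀ i ∈ I.toList, i < n := fun i hi =>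
        hlt i (List.mem_toFinset.mp (hI (Finset.mem_toList.mp hi)))
      obtain ⟨h1, h2, h3⟩ := hR1 I.toList hIl
      rw [Finset.toList_toFinset] at h1
      rw [← h1]
      refine (List.toFinset_card_le _).trans (h3.trans ?_)
      apply Nat.mul_le_mul_right
      rw [Finset.length_toList]
      exact (Finset.card_le_card hI).trans ((List.toFinset_card_le _).trans hlen))
    have hterm : ∀ T ∈ subL S, (Qn.mul (sgn S T) (lval (qm Δ m) (wts fl D m) m
        (ctab E n (qm Δ m) S) T)).val = (-1 : ℝ) ^ (S.toFinset.card - T.toFinset.card) *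
          ∑ i ∈ Finset.range m, w i * s T.toFinset (i + 1) := by
      intro T hT
      rw [Qn.val_mul, val_sgn, List.toFinset_card_of_nodup hnd,
        List.toFinset_card_of_nodup ((hB1 T hT).nodup hnd)]
      congr 1
      rw [hc1]
      exact val_lval hNsv hWtv hD hQ (hy0 _) (hs _) (hYvv S c _ p hnd hc2 T hT)
    unfold terms
    rw [List.map_map]
    have h5 : (subL S).map (Qn.val ∘ fun T => Qn.mul (sgn S T) (lval (qm Δ m) (wts fl D m) m
        (ctab E n (qm Δ m) S) T)) = (subL S).map (fun T =>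
          (fun T : Finset ℕ => (-1 : ℝ) ^ (S.toFinset.card - T.card) *
            ∑ i ∈ Finset.range m, w i * s T (i + 1)) T.toFinset) := by
      apply List.map_congr_left
      intro T hT
      exact hterm T hT
    rw [h5]
    exact hB5 (fun T : Finset ℕ => (-1 : ℝ) ^ (S.toFinset.card - T.card) *
      ∑ i ∈ Finset.range m, w i * s T (i + 1))
  -- all sets
  have hall : (Pool.Agent.Helper92.BO.tot Δ fl D E n B m N).val =
      (((setsL E n B m N).map List.toFinset).map g).sum := by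
    unfold Pool.Agent.Helper92.BO.tot
    rw [Qn.val_sum, List.map_flatMap, List.map_map]
    have h6 : ∀ L : List (List ℕ), (∀ S ∈ L, S ∈ setsL E n B m N) →
        (L.flatMap fun S => (terms E n (qm Δ m) (wts fl D m) m (S.take m)).map Qn.val).sum =
          (L.map (g ∘ List.toFinset)).sum := by
      intro L
      induction L with
      | nil => intro _; simp
      | cons S L ih =>
        intro hL
        rw [List.flatMap_cons, List.sum_append, List.map_cons, List.sum_cons,
          ih (fun S' hS' => hL S' (List.mem_cons_of_mem _ hS')), hone S (hL S List.mem_cons_self)]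
        rfl
    exact h6 _ fun S hS => hS
  rw [hall, ← List.sum_toFinset _ hW2]
  set F := ((setsL E n B m N).map List.toFinset).toFinset with hF
  have hMobj : ∀ j ≤ m, s (Finset.range n) j =
      ∑ S ∈ F, ∑ T ∈ S.powerset, (-1 : ℝ) ^ (S.card - T.card) * s T j := by
    intro j hj
    refine hMob p s (fun u w => relB E n u w = true) (Finset.range n) F m j hp0 hs ?_ ?_ ?_ hj
    · intro I J hI hJ _ hIJ
      apply hPml (gE E) n I J hI hJ
      rw [Finset.disjoint_left]
      intro x hx1 hx2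
      rw [mem_cn] at hx1 hx2
      have h7 : ∃ u ∈ I, x ∈ cn (gE E) n {u} := by
        rcases hx1.2 with h8 | ⟨u, hu, h8⟩
        · exact ⟨x, h8, mem_cn.mpr ⟨hx1.1, Or.inl (Finset.mem_singleton_self x)⟩⟩
        · exact ⟨u, hu, mem_cn.mpr ⟨hx1.1, Or.inr ⟨u, Finset.mem_singleton_self u, h8⟩⟩⟩
      have h9 : ∃ u ∈ J, x ∈ cn (gE E) n {u} := by
        rcases hx2.2 with h8 | ⟨u, hu, h8⟩
        · exact ⟨x, h8, mem_cn.mpr ⟨hx2.1, Or.inl (Finset.mem_singleton_self x)⟩⟩
        · exact ⟨u, hu, mem_cn.mpr ⟨hx2.1, Or.inr ⟨u, Finset.mem_singleton_self u, h8⟩⟩⟩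
      obtain ⟨u, hu, hxu⟩ := h7
      obtain ⟨v, hv, hxv⟩ := h9
      apply hIJ u hu v hv
      rw [hR2 u v (Finset.mem_range.mp (hI hu)) (Finset.mem_range.mp (hJ hv)),
        Finset.not_disjoint_iff]
      exact ⟨x, hxu, hxv⟩
    · intro S hS
      rw [hF, List.mem_toFinset, List.mem_map] at hS
      obtain ⟨S', hS', rfl⟩ := hS
      rw [Finset.mem_powerset]
      intro x hx
      exact Finset.mem_range.mpr ((hW1 S' hS').2.1 x (List.mem_toFinset.mp hx))
    · intro S hS1 hS2 hS3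
      obtain ⟨S', hS', h10⟩ := hW3 S hS1 hS2 hS3
      rw [hF, List.mem_toFinset, List.mem_map]
      exact ⟨S', hS', h10⟩
  have hswap : ∑ S ∈ F, g S = ∑ i ∈ Finset.range m, w i *
      ∑ S ∈ F, ∑ T ∈ S.powerset, (-1 : ℝ) ^ (S.card - T.card) * s T (i + 1) := by
    have h13 : ∀ S, g S = ∑ i ∈ Finset.range m, w i * ∑ T ∈ S.powerset,
        (-1 : ℝ) ^ (S.card - T.card) * s T (i + 1) := by
      intro S
      show ∑ T ∈ S.powerset, (-1 : ℝ) ^ (S.card - T.card) *
        ∑ i ∈ Finset.range m, w i * s T (i + 1) = _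
      simp only [Finset.mul_sum]
      rw [Finset.sum_comm]
      exact Finset.sum_congr rfl fun i _ => Finset.sum_congr rfl fun T _ => by ring
    simp only [h13]
    rw [Finset.sum_comm]
    exact Finset.sum_congr rfl fun i _ => by rw [Finset.mul_sum]
  rw [hswap]
  refine Finset.sum_congr rfl fun i hi => ?_
  have him : i < m := Finset.mem_range.mp hi
  rw [← hMobj (i + 1) him, hsV (i + 1) him, hw]
  have h11 : (i : ℝ) + 1 ≠ 0 := by positivity
  have h12 : (D : ℝ) ≠ 0 := by exact_mod_cast hD.ne'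
  field_simp

end Pool.Agent.Helper32.BO
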